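import Pool.Agent.Helper96.QT.Def
import Pool.Agent.Helper96.Keep.RandomModel

/-!
# QT12: the random model, finite form

Product measure of signs on the primes, `RandomModel.result` with `δ = 1/8`; the event that both
signs reach `C √n` for some `n ≤ X` depends on the signs of the primes up to `X` only.
-/

namespace Pool.Agent.QT

open Real Filter Topology MeasureTheory Set DirichletCharacter ProbabilityTheory
open Pool.Agent.Helper96.Keep.RandomModel

/-- the uniform measure on `Bool` -/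
private noncomputable def be74 : Measure Bool := (2⁻¹ : ENNReal) • Measure.count

private theorem be_one74 (b : Bool) : be74 {b} = 1 / 2 := by
  simp [be74]

private instance be_prob74 : IsProbabilityMeasure be74 := by
  constructor
  rw [be74, Measure.smul_apply, Measure.count_apply_finite' (Set.toFinite _) MeasurableSet.univ]
  simp [ENNReal.inv_mul_cancel]

private noncomputable def PP74 : Measure (Nat.Primes → Bool) :=
  Measure.infinitePi (fun _ : Nat.Primes => be74)

private instance PP_prob74 : IsProbabilityMeasure PP74 := by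
  unfold PP74; infer_instance

/-- the sign of a prime -/
private noncomputable def ep74 (p : Nat.Primes) (ω : Nat.Primes → Bool) : ℝ :=
  if ω p = true then -1 else 1

private theorem ep_meas74 (p : Nat.Primes) : Measurable (ep74 p) := by
  have h : Measurable fun b : Bool => if b = true then (-1 : ℝ) else 1 := measurable_of_countable _
  exact h.comp (measurable_pi_apply p)

private theorem ep_ind74 : iIndepFun ep74 PP74 :=
  iIndepFun_infinitePi (P := fun _ : Nat.Primes => be74)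
    (X := fun _ (b : Bool) => if b = true then (-1 : ℝ) else 1)
    (fun _ => measurable_of_countable _)

private theorem coord74 (p : Nat.Primes) (b : Bool) : PP74 {ω | ω p = b} = 1 / 2 := by
  have h : {ω : Nat.Primes → Bool | ω p = b} = Set.pi (({p} : Finset Nat.Primes) : Set Nat.Primes)
      (fun _ => {b}) := by
    ext ω
    simp
  rw [h, PP74, Measure.infinitePi_pi _ (fun _ _ => MeasurableSet.singleton _),
    Finset.prod_singleton, be_one74]

private theorem ep_one74 (p : Nat.Primes) : PP74 {ω | ep74 p ω = 1} = 1 / 2 := by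
  rw [← coord74 p false]
  congr 1
  ext ω
  simp only [ep74, Set.mem_ofPred_eq]
  cases h : ω p <;> norm_num

private theorem ep_neg74 (p : Nat.Primes) : PP74 {ω | ep74 p ω = -1} = 1 / 2 := by
  rw [← coord74 p true]
  congr 1
  ext ω
  simp only [ep74, Set.mem_ofPred_eq]
  cases h : ω p <;> norm_num

open Classical in
/-- the pattern of `ω` up to `X` -/
private noncomputable def pt74 (X : ℕ) (ω : Nat.Primes → Bool) : Finset ℕ :=
  (PX X).filter fun p => ∃ h : p.Prime, ω ⟨p, h⟩ = true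

private theorem PM_eq74 {X m : ℕ} (hm : m ≤ X) (ω : Nat.Primes → Bool) :
    PM (pt74 X ω) m = signed (fun p => ep74 p ω) m := by
  unfold PM signed
  split_ifs with h
  · rw [← Finset.prod_attach m.primeFactors (fun p => if p ∈ pt74 X ω then (-1 : ℝ) else 1)]
    refine Finset.prod_congr rfl fun p _ => ?_
    have hp := Nat.prime_of_mem_primeFactors p.2
    have hle := (Nat.le_of_mem_primeFactors p.2).trans hm
    have hiff : (p : ℕ) ∈ pt74 X ω ↔ ω ⟨p, hp⟩ = true := by
      unfold pt74 PX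
      simp only [Finset.mem_filter, Finset.mem_Icc]
      exact ⟨fun h => h.2.2, fun h => ⟨⟨⟨hp.one_le, hle⟩, hp⟩, hp, h⟩⟩
    unfold ep74
    exact if_congr hiff rfl rfl
  · rfl

/-- both signs are reached -/
private def Gd74 (C : ℝ) (X : ℕ) (T : Finset ℕ) : Prop :=
  (∃ n ∈ Finset.Icc 1 X, C * Real.sqrt n ≤ ∑ m ∈ Finset.Icc 1 n, PM T m) ∧
    ∃ n ∈ Finset.Icc 1 X, ∑ m ∈ Finset.Icc 1 n, PM T m ≤ -(C * Real.sqrt n)

private theorem Gd_iff74 (C : ℝ) (X : ℕ) (ω : Nat.Primes → Bool) : Gd74 C X (pt74 X ω) ↔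
    ((∃ n ∈ Finset.Icc 1 X, C * Real.sqrt n ≤
        ∑ m ∈ Finset.Icc 1 n, signed (fun p => ep74 p ω) m) ∧
      ∃ n ∈ Finset.Icc 1 X, ∑ m ∈ Finset.Icc 1 n, signed (fun p => ep74 p ω) m ≤
        -(C * Real.sqrt n)) := by
  have e : ∀ n ∈ Finset.Icc 1 X, ∑ m ∈ Finset.Icc 1 n, PM (pt74 X ω) m =
      ∑ m ∈ Finset.Icc 1 n, signed (fun p => ep74 p ω) m := by
    intro n hn
    refine Finset.sum_congr rfl fun m hm => PM_eq74 ?_ ω
    exact (Finset.mem_Icc.1 hm).2.trans (Finset.mem_Icc.1 hn).2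
  unfold Gd74
  constructor
  · rintro ⟨⟨n, hn, h⟩, n', hn', h'⟩
    exact ⟨⟨n, hn, by rwa [← e n hn]⟩, n', hn', by rwa [← e n' hn']⟩
  · rintro ⟨⟨n, hn, h⟩, n', hn', h'⟩
    exact ⟨⟨n, hn, by rwa [e n hn]⟩, n', hn', by rwa [e n' hn']⟩

private theorem Gd_mono74 {C : ℝ} {X X' : ℕ} (hX : X ≤ X') {ω : Nat.Primes → Bool}
    (h : Gd74 C X (pt74 X ω)) : Gd74 C X' (pt74 X' ω) := by
  rw [Gd_iff74] at h ⊢
  obtain ⟨⟨n, hn, h⟩, n', hn', h'⟩ := h
  exact ⟨⟨n, Finset.Icc_subset_Icc_right hX hn, h⟩, n', Finset.Icc_subset_Icc_right hX hn', h'⟩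

private theorem ae_good74 (C : ℝ) : ∀ᵐ ω ∂PP74, ∃ X, Gd74 C X (pt74 X ω) := by
  have key := result (1 / 8) (by norm_num) PP74 ep74 ep_meas74 ep_ind74 ep_one74 ep_neg74
  filter_upwards [key] with ω hω
  obtain ⟨-, X0, hX0⟩ := hω
  have ht : Tendsto (fun x : ℝ => Real.log (Real.log x) ^ ((1 : ℝ) / 4 - 1 / 8)) atTop atTop :=
    (tendsto_rpow_atTop (by norm_num)).comp (Real.tendsto_log_atTop.comp Real.tendsto_log_atTop)
  obtain ⟨x1, hx1⟩ := (eventually_atTop.1 (ht.eventually_ge_atTop (max C 0)))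
  obtain ⟨⟨x, hx, hx4, hM⟩, y, hy, hy4, hM'⟩ := hX0 (max (max X0 x1) 1)
    ((le_max_left _ _).trans (le_max_left _ _))
  have hx1' : 1 ≤ x := (le_max_right _ _).trans hx
  have hy1' : 1 ≤ y := (le_max_right _ _).trans hy
  have hxx : x1 ≤ x := ((le_max_right _ _).trans (le_max_left _ _)).trans hx
  have hyy : x1 ≤ y := ((le_max_right _ _).trans (le_max_left _ _)).trans hy
  refine ⟨⌈(max (max X0 x1) 1) ^ 4⌉₊, ?_⟩
  rw [Gd_iff74]
  have aux : ∀ z : ℝ, 1 ≤ z → x1 ≤ z → C * Real.sqrt (⌊z⌋₊ : ℕ) ≤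
      Real.sqrt z * Real.log (Real.log z) ^ ((1 : ℝ) / 4 - 1 / 8) := by
    intro z hz hz1
    have h1 : Real.sqrt (⌊z⌋₊ : ℕ) ≤ Real.sqrt z :=
      Real.sqrt_le_sqrt (Nat.floor_le (by linarith))
    have h2 := hx1 z hz1
    calc C * Real.sqrt (⌊z⌋₊ : ℕ) ≤ max C 0 * Real.sqrt z :=
          mul_le_mul (le_max_left _ _) h1 (Real.sqrt_nonneg _) (le_max_right _ _)
      _ ≤ Real.log (Real.log z) ^ ((1 : ℝ) / 4 - 1 / 8) * Real.sqrt z :=
          mul_le_mul_of_nonneg_right h2 (Real.sqrt_nonneg _)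
      _ = _ := mul_comm _ _
  have mem : ∀ z : ℝ, 1 ≤ z → z ≤ (max (max X0 x1) 1) ^ 4 →
      ⌊z⌋₊ ∈ Finset.Icc 1 ⌈(max (max X0 x1) 1) ^ 4⌉₊ := by
    intro z hz hz4
    rw [Finset.mem_Icc]
    exact ⟨(Nat.one_le_floor_iff _).2 hz, (Nat.floor_le_floor hz4).trans (Nat.floor_le_ceil _)⟩
  refine ⟨⟨⌊x⌋₊, mem x hx1' hx4, (aux x hx1' hxx).trans hM⟩, ⌊y⌋₊, mem y hy1' hy4, ?_⟩
  have := aux y hy1' hyy
  exact hM'.trans (neg_le_neg this)

private theorem pt_sub74 (X : ℕ) (ω : Nat.Primes → Bool) : pt74 X ω ⊆ PX X :=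
  Finset.filter_subset _ _

/-- the primes up to `X` -/
private def sp74 (X : ℕ) : Finset Nat.Primes := (PX X).subtype Nat.Prime

private theorem mem_sp74 {X : ℕ} {p : Nat.Primes} : p ∈ sp74 X ↔ (p : ℕ) ∈ PX X :=
  Finset.mem_subtype (p := Nat.Prime) (s := PX X) (a := p)

private theorem card_sp74 (X : ℕ) : (sp74 X).card = (PX X).card := by
  refine (Finset.card_subtype Nat.Prime (PX X)).trans ?_
  congr 1
  exact Finset.filter_true_of_mem fun p hp => (Finset.mem_filter.1 hp).2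

open Classical in
private theorem pt_fiber74 {X : ℕ} {T : Finset ℕ} (hT : T ⊆ PX X) :
    {ω : Nat.Primes → Bool | pt74 X ω = T} =
      Set.pi (sp74 X : Set Nat.Primes) (fun p => {decide ((p : ℕ) ∈ T)}) := by
  ext ω
  simp only [Set.mem_ofPred_eq, Set.mem_pi, Finset.mem_coe, mem_sp74,
    Set.mem_singleton_iff]
  constructor
  · rintro rfl p hp
    have hiff : (p : ℕ) ∈ pt74 X ω ↔ ω p = true := by
      unfold pt74
      rw [Finset.mem_filter]
      exact ⟨fun h => by obtain ⟨_, h', h2⟩ := h; exact h2, fun h => ⟨hp, p.2, h⟩⟩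
    rcases hb : ω p with _ | _
    · symm
      rw [decide_eq_false_iff_not, hiff, hb]
      simp
    · symm
      rw [decide_eq_true_iff, hiff, hb]
  · intro h
    ext p
    unfold pt74
    rw [Finset.mem_filter]
    constructor
    · rintro ⟨hp, hpr, hω⟩
      have := h ⟨p, hpr⟩ hp
      rw [hω] at this
      exact of_decide_eq_true this.symm
    · intro hp
      have hpX := hT hp
      have hpr : p.Prime := (Finset.mem_filter.1 hpX).2
      refine ⟨hpX, hpr, ?_⟩
      rw [h ⟨p, hpr⟩ hpX]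
      exact decide_eq_true hp

open Classical in
private theorem pt_prob74 {X : ℕ} {T : Finset ℕ} (hT : T ⊆ PX X) :
    MeasurableSet {ω : Nat.Primes → Bool | pt74 X ω = T} ∧
      PP74 {ω : Nat.Primes → Bool | pt74 X ω = T} = (1 / 2) ^ (PX X).card := by
  rw [pt_fiber74 hT]
  refine ⟨MeasurableSet.pi (Finset.countable_toSet _) fun _ _ => MeasurableSet.singleton _, ?_⟩
  rw [PP74, Measure.infinitePi_pi _ (fun _ _ => MeasurableSet.singleton _)]
  simp only [be_one74, Finset.prod_const]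
  rw [card_sp74]

open Classical in
private theorem bad_prob74 (C : ℝ) (X : ℕ) :
    MeasurableSet {ω : Nat.Primes → Bool | ¬Gd74 C X (pt74 X ω)} ∧
      PP74 {ω : Nat.Primes → Bool | ¬Gd74 C X (pt74 X ω)} =
        (((PX X).powerset.filter fun T => ¬Gd74 C X T).card : ENNReal) *
          (1 / 2) ^ (PX X).card := by
  have hU : {ω : Nat.Primes → Bool | ¬Gd74 C X (pt74 X ω)} =
      ⋃ T ∈ (PX X).powerset.filter (fun T => ¬Gd74 C X T),
        {ω : Nat.Primes → Bool | pt74 X ω = T} := by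
    ext ω
    simp only [Set.mem_ofPred_eq, Set.mem_iUnion, Finset.mem_filter, Finset.mem_powerset,
      exists_prop]
    constructor
    · intro h
      exact ⟨pt74 X ω, ⟨pt_sub74 X ω, h⟩, rfl⟩
    · rintro ⟨T, ⟨-, h⟩, rfl⟩
      exact h
  rw [hU]
  have hm : ∀ T ∈ (PX X).powerset.filter (fun T => ¬Gd74 C X T),
      MeasurableSet {ω : Nat.Primes → Bool | pt74 X ω = T} := fun T hT =>
    (pt_prob74 (Finset.mem_powerset.1 (Finset.mem_filter.1 hT).1)).1
  refine ⟨Finset.measurableSet_biUnion _ hm, ?_⟩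
  rw [measure_biUnion_finset ?_ hm]
  · rw [Finset.sum_congr rfl fun T hT =>
      (pt_prob74 (Finset.mem_powerset.1 (Finset.mem_filter.1 hT).1)).2]
    simp [Finset.sum_const, nsmul_eq_mul]
  · intro T _ T' _ hne
    refine Set.disjoint_left.2 fun ω h1 h2 => hne ?_
    rw [← h1, ← h2]

open Classical in
theorem finite_model (C η : ℝ) (hη : 0 < η) : ∃ X : ℕ,
    (((PX X).powerset.filter fun T => ¬((∃ n ∈ Finset.Icc 1 X, C * Real.sqrt n ≤ ∑ m ∈ Finset.Icc 1 n, PM T m) ∧
      ∃ n ∈ Finset.Icc 1 X, ∑ m ∈ Finset.Icc 1 n, PM T m ≤ -(C * Real.sqrt n))).card : ℝ) ≤ η * 2 ^ (PX X).card := by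
  have hanti : Antitone fun X : ℕ => {ω : Nat.Primes → Bool | ¬Gd74 C X (pt74 X ω)} := by
    intro X X' hX ω hω h
    exact hω (Gd_mono74 hX h)
  have hlim := tendsto_measure_iInter_atTop (μ := PP74)
    (fun X => (bad_prob74 C X).1.nullMeasurableSet) hanti ⟨0, measure_ne_top _ _⟩
  have hnull : PP74 (⋂ X : ℕ, {ω : Nat.Primes → Bool | ¬Gd74 C X (pt74 X ω)}) = 0 := by
    rw [measure_eq_zero_iff_ae_notMem]
    filter_upwards [ae_good74 C] with ω hω h
    obtain ⟨X, hX⟩ := hω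
    exact Set.mem_iInter.1 h X hX
  rw [hnull] at hlim
  obtain ⟨X, hX⟩ := (hlim.eventually (gt_mem_nhds (ENNReal.ofReal_pos.2 hη))).exists
  refine ⟨X, ?_⟩
  rw [Function.comp_apply, (bad_prob74 C X).2] at hX
  suffices hs : (((PX X).powerset.filter fun T => ¬Gd74 C X T).card : ℝ) ≤ η * 2 ^ (PX X).card by
    unfold Gd74 at hs
    convert hs
  have h2 : (((PX X).powerset.filter fun T => ¬Gd74 C X T).card : ENNReal) *
      (1 / 2) ^ (PX X).card = ENNReal.ofReal
        ((((PX X).powerset.filter fun T => ¬Gd74 C X T).card : ℝ) * (1 / 2) ^ (PX X).card) := by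
    rw [ENNReal.ofReal_mul (by positivity), ENNReal.ofReal_natCast,
      ENNReal.ofReal_pow (by norm_num)]
    congr 2
    rw [ENNReal.ofReal_div_of_pos (by norm_num)]
    simp
  rw [h2, ENNReal.ofReal_lt_ofReal_iff hη] at hX
  have h3 : (0 : ℝ) < 2 ^ (PX X).card := by positivity
  rw [one_div, inv_pow] at hX
  rw [← div_le_iff₀ h3, div_eq_mul_inv]
  exact hX.le

end Pool.Agent.QT
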